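import Pool.Agent.SKQ.Stmts
import Pool.Agent.SKQ.Kit

/-!
# Row CHR: composition with a smooth function
-/

set_option autoImplicit false

namespace Pool.Agent.SKQ.H10

open Metric Set Filter Topology MeasureTheory
open scoped ENNReal
open Helper22QC
open Pool.Agent.SKQ

variable {n : ℕ}

theorem unif_comp {W : Type} [NormedAddCommGroup W] {C : Set (E n)} (hC : IsCompact C)
    {f : E n → E n} (hf : ContinuousOn f C) {f' : ℕ → E n → E n}
    (h : TendstoUniformlyOn f' f atTop C) {Φ : E n × E n → W} (hΦ : Continuous Φ) :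
    TendstoUniformlyOn (fun k y => Φ (y, f' k y)) (fun y => Φ (y, f y)) atTop C := by
  obtain ⟨R, hR⟩ := (hC.image_of_continuousOn hf).isBounded.subset_closedBall (0 : E n)
  have hK : IsCompact (C ×ˢ closedBall (0 : E n) (R + 1)) :=
    hC.prod (isCompact_closedBall 0 (R + 1))
  have hu := hK.uniformContinuousOn_of_continuous hΦ.continuousOn
  rw [Metric.uniformContinuousOn_iff] at hu
  rw [Metric.tendstoUniformlyOn_iff] at h ⊢
  intro ε hε
  obtain ⟨δ, hδ, hu'⟩ := hu ε hε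
  filter_upwards [h (min δ 1) (lt_min hδ one_pos)] with k hk y hy
  have h1 : dist (f y) (f' k y) < min δ 1 := hk y hy
  have h2 : dist (f y) 0 ≤ R := hR (mem_image_of_mem f hy)
  have h3 : dist (f' k y) 0 ≤ dist (f' k y) (f y) + dist (f y) 0 := dist_triangle _ _ _
  rw [dist_comm (f' k y) (f y)] at h3
  have h4 : dist (f y) (f' k y) < 1 := h1.trans_le (min_le_right δ 1)
  have h5 : dist (f' k y) 0 ≤ R + 1 := by linarith
  have h6 : dist (f y) 0 ≤ R + 1 := by linarith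
  have h7 : (y, f y) ∈ C ×ˢ closedBall (0 : E n) (R + 1) := ⟨hy, h6⟩
  have h8 : (y, f' k y) ∈ C ×ˢ closedBall (0 : E n) (R + 1) := ⟨hy, h5⟩
  have h9 : dist ((y, f y) : E n × E n) (y, f' k y) < δ := by
    rw [Prod.dist_eq]
    refine max_lt ?_ (h1.trans_le (min_le_left _ _))
    show dist y y < δ
    rw [dist_self]
    exact hδ
  exact hu' _ h7 _ h8 h9

/-- the map `(l, M) ↦ gr (l ∘ (1, M))` is continuous -/
theorem continuous_T : Continuous (fun p : ((E n × E n) →L[ℝ] ℝ) × Mt n =>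
    gr (p.1.comp ((ContinuousLinearMap.id ℝ (E n)).prod p.2))) := by
  have h1 : (fun p : ((E n × E n) →L[ℝ] ℝ) × Mt n =>
      gr (p.1.comp ((ContinuousLinearMap.id ℝ (E n)).prod p.2))) =
      fun p : ((E n × E n) →L[ℝ] ℝ) × Mt n =>
      gr (p.1.comp (ContinuousLinearMap.inl ℝ (E n) (E n) +
        (ContinuousLinearMap.inr ℝ (E n) (E n)).comp p.2)) := by
    funext p
    refine congrArg gr ?_
    refine congrArg (ContinuousLinearMap.comp p.1) ?_
    ext v <;> simp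
  rw [h1]
  refine continuous_gr.comp ?_
  exact continuous_fst.clm_comp (continuous_const.add (continuous_const.clm_comp continuous_snd))

theorem grc_fderiv {g : E n → E n} (hg : Differentiable ℝ g) {Ψ : E n × E n → ℝ}
    (hΨ : Differentiable ℝ Ψ) (y : E n) :
    gr (fderiv ℝ (fun y => Ψ (y, g y)) y) = grc Ψ g (fderiv ℝ g) y := by
  unfold grc
  refine congrArg gr ?_
  have h1 : HasFDerivAt (fun y => (y, g y)) ((ContinuousLinearMap.id ℝ (E n)).prod (fderiv ℝ g y)) y :=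
    (hasFDerivAt_id y).prodMk (hg y).hasFDerivAt
  have h2 : HasFDerivAt Ψ (fderiv ℝ Ψ (y, g y)) (y, g y) := (hΨ (y, g y)).hasFDerivAt
  exact (h2.comp y h1).fderiv

theorem norm_grc_sub_le (Ψ : E n × E n → ℝ) (f g : E n → E n) (F G : E n → Mt n) (y : E n) :
    ‖grc Ψ g G y - grc Ψ f F y‖ ≤ ‖fderiv ℝ Ψ (y, g y) - fderiv ℝ Ψ (y, f y)‖ * (1 + ‖F y‖) +
      ‖fderiv ℝ Ψ (y, g y)‖ * ‖G y - F y‖ := by
  unfold grc
  rw [← gr_sub, norm_gr]
  refine ContinuousLinearMap.opNorm_le_bound _ (by positivity) fun v => ?_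
  have e : ((fderiv ℝ Ψ (y, g y)).comp ((ContinuousLinearMap.id ℝ (E n)).prod (G y)) -
      (fderiv ℝ Ψ (y, f y)).comp ((ContinuousLinearMap.id ℝ (E n)).prod (F y))) v =
      (fderiv ℝ Ψ (y, g y) - fderiv ℝ Ψ (y, f y)) (v, F y v) +
        fderiv ℝ Ψ (y, g y) (0, (G y - F y) v) := by
    have e1 : ((v, G y v) : E n × E n) = (v, F y v) + (0, (G y - F y) v) := by
      ext1
      · simp
      · simp
    show fderiv ℝ Ψ (y, g y) (v, G y v) - fderiv ℝ Ψ (y, f y) (v, F y v) =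
      (fderiv ℝ Ψ (y, g y) (v, F y v) - fderiv ℝ Ψ (y, f y) (v, F y v)) +
        fderiv ℝ Ψ (y, g y) (0, (G y - F y) v)
    rw [e1, map_add]
    ring
  rw [e]
  refine (norm_add_le _ _).trans ?_
  have a1 : ‖((v, F y v) : E n × E n)‖ ≤ (1 + ‖F y‖) * ‖v‖ := by
    rw [Prod.norm_def]
    refine max_le ?_ ?_
    · show ‖v‖ ≤ _
      nlinarith [norm_nonneg (F y), norm_nonneg v, mul_nonneg (norm_nonneg (F y)) (norm_nonneg v)]
    · show ‖F y v‖ ≤ _
      have := (F y).le_opNorm v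
      nlinarith [norm_nonneg v]
  have a2 : ‖((0, (G y - F y) v) : E n × E n)‖ ≤ ‖G y - F y‖ * ‖v‖ := by
    rw [Prod.norm_def]
    refine max_le ?_ ?_
    · show ‖(0 : E n)‖ ≤ _
      rw [norm_zero]
      positivity
    · exact (G y - F y).le_opNorm v
  have b1 := (fderiv ℝ Ψ (y, g y) - fderiv ℝ Ψ (y, f y)).le_opNorm (v, F y v)
  have b2 := (fderiv ℝ Ψ (y, g y)).le_opNorm (0, (G y - F y) v)
  have c1 : ‖fderiv ℝ Ψ (y, g y) - fderiv ℝ Ψ (y, f y)‖ * ‖((v, F y v) : E n × E n)‖ ≤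
      ‖fderiv ℝ Ψ (y, g y) - fderiv ℝ Ψ (y, f y)‖ * ((1 + ‖F y‖) * ‖v‖) :=
    mul_le_mul_of_nonneg_left a1 (norm_nonneg _)
  have c2 : ‖fderiv ℝ Ψ (y, g y)‖ * ‖((0, (G y - F y) v) : E n × E n)‖ ≤
      ‖fderiv ℝ Ψ (y, g y)‖ * (‖G y - F y‖ * ‖v‖) :=
    mul_le_mul_of_nonneg_left a2 (norm_nonneg _)
  linarith

theorem chr : CHRStmt := by
  intro n C f F Ψ hn hC h hΨ
  have hf := h.continuousOn
  have hCm : MeasurableSet C := hC.measurableSet
  have hCfin : volume C ≠ ⊤ := hC.measure_lt_top.ne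
  have hΨd : Differentiable ℝ Ψ := hΨ.differentiable (by simp)
  have hD : Continuous (fderiv ℝ Ψ) := hΨ.continuous_fderiv (by simp)
  have hDf : ContinuousOn (fun y => fderiv ℝ Ψ (y, f y)) C :=
    hD.comp_continuousOn (continuousOn_id.prodMk hf)
  obtain ⟨L', hL'⟩ := hC.exists_bound_of_continuousOn hDf
  obtain ⟨L, hL0, hL⟩ : ∃ L : ℝ, 0 ≤ L ∧ ∀ y ∈ C, ‖fderiv ℝ Ψ (y, f y)‖ ≤ L :=
    ⟨max L' 0, le_max_right _ _, fun y hy => (hL' y hy).trans (le_max_left _ _)⟩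
  have hmeas : AEStronglyMeasurable (grc Ψ f F) (volume.restrict C) :=
    continuous_T.comp_aestronglyMeasurable ((hDf.aestronglyMeasurable hCm).prodMk h.meas)
  have hint1 : IntegrableOn (fun y => (1 + ‖F y‖) ^ n) C := by
    have h1 : IntegrableOn (fun y => 2 ^ (n - 1) * ((1 : ℝ) ^ n + ‖F y‖ ^ n)) C :=
      ((integrableOn_const hCfin).add h.int).const_mul _
    refine Integrable.mono' h1 ((aestronglyMeasurable_const.add h.meas.norm).pow n)
      (Eventually.of_forall fun y => ?_)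
    rw [Real.norm_of_nonneg (by positivity)]
    exact add_pow_le zero_le_one (norm_nonneg _) n
  have hint : IntegrableOn (fun y => ‖grc Ψ f F y‖ ^ n) C := by
    refine Integrable.mono' (hint1.const_mul (L ^ n)) (hmeas.norm.pow n) ?_
    refine ae_restrict_of_forall_mem hCm fun y hy => ?_
    rw [Real.norm_of_nonneg (by positivity), ← mul_pow]
    refine pow_le_pow_left₀ (norm_nonneg _) ((norm_grc_le Ψ f F y).trans ?_) n
    exact mul_le_mul_of_nonneg_right (hL y hy) (by positivity)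
  refine ⟨hmeas, hint, ?_⟩
  obtain ⟨f', h1, h2, h3⟩ := h.ap
  refine ⟨fun k y => Ψ (y, f' k y), fun k => hΨ.comp (contDiff_id.prodMk (h1 k)),
    unif_comp hC hf h2 hΨ.continuous, ?_⟩
  have hU := unif_comp hC hf h2 hD
  rw [Metric.tendstoUniformlyOn_iff] at hU
  have e : ∀ k, ∫ x in C, ‖gr (fderiv ℝ (fun y => Ψ (y, f' k y)) x) - grc Ψ f F x‖ ^ n =
      ∫ x in C, ‖grc Ψ (f' k) (fderiv ℝ (f' k)) x - grc Ψ f F x‖ ^ n := by
    intro k
    refine setIntegral_congr_fun hCm fun x _ => ?_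
    show ‖gr (fderiv ℝ (fun y => Ψ (y, f' k y)) x) - grc Ψ f F x‖ ^ n = _
    rw [grc_fderiv ((h1 k).differentiable (by simp)) hΨd x]
  show Tendsto (fun k => ∫ x in C, ‖gr (fderiv ℝ (fun y => Ψ (y, f' k y)) x) - grc Ψ f F x‖ ^ n)
    atTop (𝓝 0)
  simp only [e]
  set I : ℝ := ∫ y in C, (1 + ‖F y‖) ^ n with hI
  rw [Metric.tendsto_nhds]
  intro η hη
  have hc : Tendsto (fun ε : ℝ => 2 ^ (n - 1) * (ε ^ n * I)) (𝓝[>] 0) (𝓝 0) := by
    have hcc : Continuous (fun ε : ℝ => 2 ^ (n - 1) * (ε ^ n * I)) := by fun_prop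
    have := hcc.tendsto (0 : ℝ)
    simp only [zero_pow (by omega : n ≠ 0), zero_mul, mul_zero] at this
    exact this.mono_left nhdsWithin_le_nhds
  have hc1 : ∀ᶠ ε : ℝ in 𝓝[>] 0, 2 ^ (n - 1) * (ε ^ n * I) < η / 2 :=
    hc.eventually (gt_mem_nhds (half_pos hη))
  have hc2 : ∀ᶠ ε : ℝ in 𝓝[>] 0, 0 < ε ∧ ε ≤ 1 := by
    filter_upwards [Ioc_mem_nhdsGT (zero_lt_one' ℝ)] with ε hε
    exact ⟨hε.1, hε.2⟩
  obtain ⟨ε, hε1, hε0, hε2⟩ := (hc1.and hc2).exists
  have hc3 : ∀ᶠ k in atTop, 2 ^ (n - 1) * ((L + 1) ^ n *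
      ∫ x in C, ‖fderiv ℝ (f' k) x - F x‖ ^ n) < η / 2 := by
    have := (h3.const_mul ((L + 1) ^ n)).const_mul ((2 : ℝ) ^ (n - 1))
    simp only [mul_zero] at this
    exact this.eventually (gt_mem_nhds (half_pos hη))
  filter_upwards [hU ε hε0, hc3] with k hk1 hk2
  have hM : Continuous fun x => fderiv ℝ (f' k) x := (h1 k).continuous_fderiv (by simp)
  have hMi : IntegrableOn (fun x => ‖fderiv ℝ (f' k) x - F x‖ ^ n) C :=
    integrableOn_sub_pow h.meas h.int hM.aestronglyMeasurable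
      ((hM.norm.pow n).continuousOn.integrableOn_compact hC)
  rw [Real.dist_0_eq_abs, abs_of_nonneg (integral_nonneg fun x => by positivity)]
  have key : ∫ x in C, ‖grc Ψ (f' k) (fderiv ℝ (f' k)) x - grc Ψ f F x‖ ^ n ≤
      ∫ x in C, (2 ^ (n - 1) * (ε ^ n * (1 + ‖F x‖) ^ n +
        (L + 1) ^ n * ‖fderiv ℝ (f' k) x - F x‖ ^ n)) := by
    refine integral_mono_of_nonneg (Eventually.of_forall fun x => by positivity)
      (((hint1.const_mul _).add (hMi.const_mul _)).const_mul _) ?_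
    refine ae_restrict_of_forall_mem hCm fun x hx => ?_
    show ‖grc Ψ (f' k) (fderiv ℝ (f' k)) x - grc Ψ f F x‖ ^ n ≤ 2 ^ (n - 1) *
      (ε ^ n * (1 + ‖F x‖) ^ n + (L + 1) ^ n * ‖fderiv ℝ (f' k) x - F x‖ ^ n)
    have g1 : ‖fderiv ℝ Ψ (x, f' k x) - fderiv ℝ Ψ (x, f x)‖ ≤ ε := by
      have := hk1 x hx
      rw [dist_comm, dist_eq_norm] at this
      exact this.le
    have g2 : ‖fderiv ℝ Ψ (x, f' k x)‖ ≤ L + 1 := by
      have g3 : ‖fderiv ℝ Ψ (x, f' k x)‖ ≤ ‖fderiv ℝ Ψ (x, f' k x) - fderiv ℝ Ψ (x, f x)‖ +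
          ‖fderiv ℝ Ψ (x, f x)‖ := by
        have := norm_add_le (fderiv ℝ Ψ (x, f' k x) - fderiv ℝ Ψ (x, f x)) (fderiv ℝ Ψ (x, f x))
        rwa [sub_add_cancel] at this
      have := hL x hx
      linarith
    have g4 : ‖grc Ψ (f' k) (fderiv ℝ (f' k)) x - grc Ψ f F x‖ ≤
        ε * (1 + ‖F x‖) + (L + 1) * ‖fderiv ℝ (f' k) x - F x‖ := by
      refine (norm_grc_sub_le Ψ f (f' k) F (fderiv ℝ (f' k)) x).trans ?_
      exact add_le_add (mul_le_mul_of_nonneg_right g1 (by positivity))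
        (mul_le_mul_of_nonneg_right g2 (norm_nonneg _))
    calc ‖grc Ψ (f' k) (fderiv ℝ (f' k)) x - grc Ψ f F x‖ ^ n ≤
        (ε * (1 + ‖F x‖) + (L + 1) * ‖fderiv ℝ (f' k) x - F x‖) ^ n :=
          pow_le_pow_left₀ (norm_nonneg _) g4 n
      _ ≤ 2 ^ (n - 1) * ((ε * (1 + ‖F x‖)) ^ n + ((L + 1) * ‖fderiv ℝ (f' k) x - F x‖) ^ n) :=
          add_pow_le (by positivity) (by positivity) n
      _ = _ := by rw [mul_pow, mul_pow]
  have e2 : ∫ x in C, (2 ^ (n - 1) * (ε ^ n * (1 + ‖F x‖) ^ n +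
        (L + 1) ^ n * ‖fderiv ℝ (f' k) x - F x‖ ^ n)) =
      2 ^ (n - 1) * (ε ^ n * I) + 2 ^ (n - 1) * ((L + 1) ^ n *
      ∫ x in C, ‖fderiv ℝ (f' k) x - F x‖ ^ n) := by
    rw [integral_const_mul, integral_add (hint1.const_mul _) (hMi.const_mul _),
      integral_const_mul, integral_const_mul, mul_add]
  rw [e2] at key
  linarith

end Pool.Agent.SKQ.H10
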